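import Mathlib

/-!
# No tuple of commuting real matrices of size at least three has only hypercyclic vectors

For every `n ≥ 3`, every `m` and every `m`-tuple of pairwise commuting real `n × n` matrices there
is a non-zero vector whose orbit under the semigroup generated by the tuple is contained in a
linear subspace of dimension at most two. In particular this orbit is not dense in `ℝⁿ`.
-/

set_option autoImplicit false

namespace Pool.Agent.Results.MP_336050_an.NoMinimalTuple

open Module

/-- The orbit `{A₁^{k₁} A₂^{k₂} ⋯ A_m^{k_m} x : k₁, …, k_m ∈ {0, 1, 2, …}}` of the vector `x` under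
the tuple `(A₁, …, A_m)`. -/
def Orbit {m n : ℕ} (A : Fin m → Matrix (Fin n) (Fin n) ℝ) (x : Fin n → ℝ) : Set (Fin n → ℝ) :=
  {y | ∃ k : Fin m → ℕ, y = (List.ofFn fun i => A i ^ k i).prod.mulVec x}

/-- Finitely many commuting endomorphisms of a finite-dimensional complex space which leave a
non-zero subspace invariant have a common eigenvector in it. -/
theorem common_eigenvector {V : Type} [AddCommGroup V] [Module ℂ V] [FiniteDimensional ℂ V]
    (L : List (End ℂ V)) :
    (∀ f ∈ L, ∀ g ∈ L, f * g = g * f) → ∀ W : Submodule ℂ V, W ≠ ⊥ →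
      (∀ f ∈ L, ∀ w ∈ W, f w ∈ W) → ∃ v ∈ W, v ≠ 0 ∧ ∀ f ∈ L, ∃ μ : ℂ, f v = μ • v := by
  induction L with
  | nil =>
    intro _ W hW _
    obtain ⟨v, hv, hv0⟩ := Submodule.exists_mem_ne_zero_of_ne_bot hW
    exact ⟨v, hv, hv0, by simp⟩
  | cons f L ih =>
    intro hc W hW hinv
    have hf : ∀ w ∈ W, f w ∈ W := hinv f (by simp)
    have : Nontrivial W := Submodule.nontrivial_iff_ne_bot.2 hW
    obtain ⟨μ, hμ⟩ := Module.End.exists_eigenvalue (f.restrict hf)
    obtain ⟨w, hw⟩ := hμ.exists_hasEigenvector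
    have hw1 : f (w : V) = μ • (w : V) := by
      have := congrArg (Subtype.val) hw.apply_eq_smul
      simpa using this
    have hw0 : (w : V) ≠ 0 := by
      intro h
      exact hw.2 (Subtype.ext h)
    obtain ⟨v, hv, hv0, hvL⟩ := ih (fun g hg h hh => hc g (by simp [hg]) h (by simp [hh]))
      (W ⊓ End.eigenspace f μ) (by
        intro hbot
        have hmem : (w : V) ∈ W ⊓ End.eigenspace f μ :=
          ⟨w.2, End.mem_eigenspace_iff.2 hw1⟩
        rw [hbot] at hmem
        exact hw0 ((Submodule.mem_bot ℂ).1 hmem))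
      (by
        intro g hg u hu
        refine ⟨hinv g (by simp [hg]) u hu.1, ?_⟩
        have hu2 : f u = μ • u := End.mem_eigenspace_iff.1 hu.2
        refine End.mem_eigenspace_iff.2 ?_
        have hfg : f * g = g * f := hc f (by simp) g (by simp [hg])
        calc f (g u) = (f * g) u := rfl
          _ = (g * f) u := by rw [hfg]
          _ = g (f u) := rfl
          _ = μ • g u := by rw [hu2, map_smul])
    refine ⟨v, hv.1, hv0, ?_⟩
    intro g hg
    rcases List.mem_cons.1 hg with rfl | hg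
    · exact ⟨μ, End.mem_eigenspace_iff.1 hv.2⟩
    · exact hvL g hg

/-- Pairwise commuting real `n × n` matrices, `n ≥ 1`, have a common non-zero invariant subspace of
dimension at most two. -/
theorem invariant_plane {m n : ℕ} (hn : 1 ≤ n) (A : Fin m → Matrix (Fin n) (Fin n) ℝ)
    (hA : ∀ i j, A i * A j = A j * A i) :
    ∃ W : Submodule ℝ (Fin n → ℝ), W ≠ ⊥ ∧ finrank ℝ W ≤ 2 ∧ ∀ i, ∀ w ∈ W, (A i).mulVec w ∈ W := by
  let B : Fin m → Matrix (Fin n) (Fin n) ℂ := fun i => (A i).map (algebraMap ℝ ℂ)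
  have hB : ∀ i j, B i * B j = B j * B i := by
    intro i j
    simp only [B]
    rw [← Matrix.map_mul, ← Matrix.map_mul, hA i j]
  have : Nonempty (Fin n) := ⟨⟨0, hn⟩⟩
  obtain ⟨v, -, hv0, hv⟩ := common_eigenvector (V := Fin n → ℂ)
    (List.ofFn fun i => Matrix.toLin' (B i)) (by
      intro f hf g hg
      obtain ⟨i, rfl⟩ := (List.mem_ofFn' _ _).1 hf
      obtain ⟨j, rfl⟩ := (List.mem_ofFn' _ _).1 hg
      rw [Module.End.mul_eq_comp, Module.End.mul_eq_comp, ← Matrix.toLin'_mul, ← Matrix.toLin'_mul,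
        hB i j]) ⊤ (by simp) (by simp)
  have hv' : ∀ i, ∃ μ : ℂ, (B i).mulVec v = μ • v := by
    intro i
    obtain ⟨μ, hμ⟩ := hv (Matrix.toLin' (B i)) ((List.mem_ofFn' _ _).2 ⟨i, rfl⟩)
    exact ⟨μ, by simpa using hμ⟩
  let a : Fin n → ℝ := fun j => (v j).re
  let b : Fin n → ℝ := fun j => (v j).im
  have hre : ∀ i j, ((B i).mulVec v j).re = (A i).mulVec a j := by
    intro i j
    simp [B, a, Matrix.mulVec, dotProduct]
  have him : ∀ i j, ((B i).mulVec v j).im = (A i).mulVec b j := by
    intro i j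
    simp [B, b, Matrix.mulVec, dotProduct]
  refine ⟨Submodule.span ℝ {a, b}, ?_, ?_, ?_⟩
  · intro hbot
    have ha : a = 0 := by
      have : a ∈ Submodule.span ℝ {a, b} := Submodule.subset_span (by simp)
      rw [hbot] at this
      exact (Submodule.mem_bot ℝ).1 this
    have hb : b = 0 := by
      have : b ∈ Submodule.span ℝ {a, b} := Submodule.subset_span (by simp)
      rw [hbot] at this
      exact (Submodule.mem_bot ℝ).1 this
    apply hv0
    ext j
    apply Complex.ext
    · simpa using congrFun ha j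
    · simpa using congrFun hb j
  · have h1 := finrank_span_le_card (R := ℝ) (({a, b} : Set (Fin n → ℝ)))
    refine h1.trans ?_
    classical
    have : (({a, b} : Set (Fin n → ℝ))).toFinset ⊆ ({a, b} : Finset (Fin n → ℝ)) := by
      intro x hx
      simpa using hx
    exact (Finset.card_le_card this).trans Finset.card_le_two
  · intro i w hw
    obtain ⟨μ, hμ⟩ := hv' i
    have ea : (A i).mulVec a = μ.re • a - μ.im • b := by
      ext j
      rw [← hre i j, hμ]
      simp [a, b]
    have eb : (A i).mulVec b = μ.im • a + μ.re • b := by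
      ext j
      rw [← him i j, hμ]
      simp [a, b]
      ring
    have ha : a ∈ Submodule.span ℝ {a, b} := Submodule.subset_span (by simp)
    have hb : b ∈ Submodule.span ℝ {a, b} := Submodule.subset_span (by simp)
    obtain ⟨s, t, rfl⟩ := Submodule.mem_span_pair.1 hw
    rw [Matrix.mulVec_add, Matrix.mulVec_smul, Matrix.mulVec_smul, ea, eb]
    refine Submodule.add_mem _ (Submodule.smul_mem _ _ ?_) (Submodule.smul_mem _ _ ?_)
    · exact Submodule.sub_mem _ (Submodule.smul_mem _ _ ha) (Submodule.smul_mem _ _ hb)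
    · exact Submodule.add_mem _ (Submodule.smul_mem _ _ ha) (Submodule.smul_mem _ _ hb)

theorem prod_invariant {n : ℕ} (W : Submodule ℝ (Fin n → ℝ)) (L : List (Matrix (Fin n) (Fin n) ℝ))
    (hL : ∀ B ∈ L, ∀ w ∈ W, B.mulVec w ∈ W) : ∀ w ∈ W, L.prod.mulVec w ∈ W := by
  induction L with
  | nil => intro w hw; simpa using hw
  | cons B L ih =>
    intro w hw
    rw [List.prod_cons, ← Matrix.mulVec_mulVec]
    exact hL B (by simp) _ (ih (fun C hC => hL C (by simp [hC])) w hw)

theorem pow_invariant {n : ℕ} (W : Submodule ℝ (Fin n → ℝ)) (B : Matrix (Fin n) (Fin n) ℝ)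
    (hB : ∀ w ∈ W, B.mulVec w ∈ W) (k : ℕ) : ∀ w ∈ W, (B ^ k).mulVec w ∈ W := by
  induction k with
  | zero => intro w hw; simpa using hw
  | succ k ih =>
    intro w hw
    rw [pow_succ', ← Matrix.mulVec_mulVec]
    exact hB _ (ih w hw)

/-- Let `n ≥ 3` and let `A₁, …, A_m` be pairwise commuting real `n × n` matrices (`m` arbitrary, in
particular `m = n`). There is a linear subspace `W ≠ 0` of dimension at most two such that the orbit
of every vector of `W` stays in `W`. Consequently not every non-zero vector of `ℝⁿ` has a dense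
orbit: there is `x ≠ 0` whose orbit is not dense. -/
theorem result (n : ℕ) (hn : 3 ≤ n) (m : ℕ) (A : Fin m → Matrix (Fin n) (Fin n) ℝ)
    (hA : ∀ i j, A i * A j = A j * A i) :
    (∃ W : Submodule ℝ (Fin n → ℝ), W ≠ ⊥ ∧ finrank ℝ W ≤ 2 ∧ ∀ x ∈ W, Orbit A x ⊆ W) ∧
    ∃ x : Fin n → ℝ, x ≠ 0 ∧ ¬ Dense (Orbit A x) := by
  obtain ⟨W, hW, hdim, hinv⟩ := invariant_plane (by omega) A hA
  have horb : ∀ x ∈ W, Orbit A x ⊆ W := by
    rintro x hx y ⟨k, rfl⟩
    refine prod_invariant W _ ?_ x hx
    intro B hB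
    obtain ⟨i, rfl⟩ := (List.mem_ofFn' _ _).1 hB
    exact pow_invariant W (A i) (hinv i) (k i)
  refine ⟨⟨W, hW, hdim, horb⟩, ?_⟩
  obtain ⟨x, hx, hx0⟩ := Submodule.exists_mem_ne_zero_of_ne_bot hW
  refine ⟨x, hx0, ?_⟩
  intro hd
  have hcl : IsClosed (W : Set (Fin n → ℝ)) := W.closed_of_finiteDimensional
  have htop : (W : Set (Fin n → ℝ)) = Set.univ := by
    rw [← hcl.closure_eq]
    exact (hd.mono (horb x hx)).closure_eq
  have : W = ⊤ := by
    ext y
    simp only [Submodule.mem_top, iff_true]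
    have : y ∈ (W : Set (Fin n → ℝ)) := by rw [htop]; trivial
    exact this
  rw [this, finrank_top, finrank_fin_fun] at hdim
  omega

end Pool.Agent.Results.MP_336050_an.NoMinimalTuple
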